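import Pool.Agent.Helper67_SGE.Kit

/-!
# SGE, module SWA: advance over a triangle with a new vertex
-/

set_option autoImplicit false

namespace Pool.Agent.SGE.H67

open Pool.Agent.SGE

/-- SWA. -/
theorem swa (nta : NtaStmt) (ang : AngStmt) (fcr : FcrStmt) : SwaStmt := by
  intro V _ f T a b P Q p q r E F hT hS hF hpr hrq
  have hpq : (f p).1 < (f q).1 := hpr.trans hrq
  have hcon : Con (P ++ p :: q :: Q) p q := ⟨P, Q, rfl⟩
  have hnr : ∀ x, ¬ E r x := by
    intro x hx
    have h1 := hS.i1 p q hcon r x hx hpr hrq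
    have h2 := hF.pos
    linarith
  have npr : p ≠ r := fun h => by rw [h] at hpr; exact lt_irrefl _ hpr
  have nrq : r ≠ q := fun h => by rw [h] at hrq; exact lt_irrefl _ hrq
  have npq : p ≠ q := fun h => by rw [h] at hpq; exact lt_irrefl _ hpq
  have hm := hS.mono
  have hmR : (q :: Q).Pairwise (fun u v => (f u).1 < (f v).1) := by
    have h1 := (List.pairwise_append.mp hm).2.1
    exact (List.pairwise_cons.mp h1).2
  have hrQ : ∀ z ∈ q :: Q, (f r).1 < (f z).1 := by
    intro z hz
    rcases List.mem_cons.mp hz with rfl | hz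
    · exact hrq
    · exact hrq.trans ((List.pairwise_cons.mp hmR).1 z hz)
  have hPr : ∀ z ∈ P ++ [p], (f z).1 < (f r).1 := by
    intro z hz
    exact (mem_left hm hz).trans_lt hpr
  have hm' : (P ++ p :: r :: q :: Q).Pairwise (fun u v => (f u).1 < (f v).1) := by
    have h1 := List.pairwise_append.mp hm
    rw [List.pairwise_append]
    refine ⟨h1.1, ?_, ?_⟩
    · rw [List.pairwise_cons, List.pairwise_cons]
      refine ⟨?_, hrQ, hmR⟩
      intro z hz
      rcases List.mem_cons.mp hz with rfl | hz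
      · exact hpr
      · exact hpr.trans (hrQ z hz)
    · intro z hz y hy
      rcases List.mem_cons.mp hy with rfl | hy
      · exact h1.2.2 z hz _ (by simp)
      · rcases List.mem_cons.mp hy with rfl | hy
        · exact hPr z (by simp [hz])
        · exact (hPr z (by simp [hz])).trans (hrQ y hy)
  have hE' : ∀ u w, addE (addE E p r) q r u w ↔
      E u w ∨ (u = p ∧ w = r) ∨ (u = r ∧ w = p) ∨ (u = q ∧ w = r) ∨ (u = r ∧ w = q) := by
    intro u w
    unfold addE
    tauto
  -- consecutive pairs of the new contour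
  have hcases : ∀ u w, Con (P ++ p :: r :: q :: Q) u w →
      (u = p ∧ w = r) ∨ (u = r ∧ w = q) ∨ (Con (P ++ p :: q :: Q) u w ∧
        ((f w).1 ≤ (f p).1 ∨ (f q).1 ≤ (f u).1)) := by
    intro u w h
    rcases con_three h with h1 | h1 | h1 | h1
    · exact Or.inl h1
    · exact Or.inr (Or.inl h1)
    · exact Or.inr (Or.inr ⟨con_left h1, Or.inl (mem_left hm (con_mem h1).2)⟩)
    · refine Or.inr (Or.inr ⟨?_, Or.inr ?_⟩)
      · have h2 : Con ((P ++ [p]) ++ q :: Q) u w := con_right h1
        rw [List.append_assoc] at h2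
        exact h2
      · rcases List.mem_cons.mp (con_mem h1).1 with h2 | h2
        · rw [h2]
        · exact ((List.pairwise_cons.mp hmR).1 u h2).le
  have hd := hF.pos
  have hF2 := fcr hF
  have hF3 := fcr hF2
  have go : ∀ u v w, u ≠ v → u ≠ w → v ≠ w → o (f u) (f v) (f w) ≠ 0 := hT.gp.o
  refine ⟨hnr, ?_⟩
  constructor
  · -- nt
    exact nta hS.nt hnr
  · -- sub
    intro u w h
    rcases (hE' u w).mp h with h1 | ⟨rfl, rfl⟩ | ⟨rfl, rfl⟩ | ⟨rfl, rfl⟩ | ⟨rfl, rfl⟩
    · exact hS.sub u w h1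
    · exact hT.sym _ _ hF.rp
    · exact hF.rp
    · exact hF.qr
    · exact hT.sym _ _ hF.qr
  · exact hm'
  · -- i1
    intro u w hc z x hz h1 h2
    -- `z` is processed in the old state
    have hz' : (∃ x, E z x) ∨ z = p ∨ z = q ∨ z = r := by
      rcases (hE' z x).mp hz with h | h | h | h | h
      · exact Or.inl ⟨x, h⟩
      · exact Or.inr (Or.inl h.1)
      · exact Or.inr (Or.inr (Or.inr h.1))
      · exact Or.inr (Or.inr (Or.inl h.1))
      · exact Or.inr (Or.inr (Or.inr h.1))
    have hz2 : ∃ x, E z x := by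
      rcases hz' with h | h | h | h
      · exact h
      · exact (con_between hm' hc (z := z) (by rw [h]; simp) h1 h2).elim
      · exact (con_between hm' hc (z := z) (by rw [h]; simp) h1 h2).elim
      · exact (con_between hm' hc (z := z) (by rw [h]; simp) h1 h2).elim
    obtain ⟨x', hx'⟩ := hz2
    rcases hcases u w hc with ⟨rfl, rfl⟩ | ⟨rfl, rfl⟩ | ⟨h3, -⟩
    · have h4 := hS.i1 _ _ hcon z x' hx' h1 (h2.trans hrq)
      exact below_pr h1 h2 hrq hd h4
    · have h4 := hS.i1 _ _ hcon z x' hx' (hpr.trans h1) h2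
      exact below_rq hpr h1 h2 hd h4
    · exact hS.i1 u w h3 z x' hx' h1 h2
  · -- i1'
    intro u w hc z hz h1 h2
    have hz0 : ∀ x, ¬ E z x := fun x hx => hz x ((hE' z x).mpr (Or.inl hx))
    have nzr : z ≠ r := fun h => hz p ((hE' z p).mpr (Or.inr (Or.inr (Or.inl ⟨h, rfl⟩))))
    have nzp : z ≠ p := fun h => hz r ((hE' z r).mpr (Or.inr (Or.inl ⟨h, rfl⟩)))
    have nzq : z ≠ q := fun h => hz r ((hE' z r).mpr (Or.inr (Or.inr (Or.inr (Or.inl ⟨h, rfl⟩)))))
    rcases hcases u w hc with ⟨rfl, rfl⟩ | ⟨rfl, rfl⟩ | ⟨h3, -⟩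
    · have h4 := hS.i1' _ _ hcon z hz0 h1 (h2.trans hrq)
      rcases lt_trichotomy (o (f u) (f w) (f z)) 0 with h5 | h5 | h5
      · exfalso
        have h6 : 0 < o (f w) (f u) (f z) := by rw [o_swap]; linarith
        exact hF.em z ⟨h4, in_left hpr h2 hrq hd h6, h6⟩
      · exact (go u w z npr nzp.symm nzr.symm h5).elim
      · exact h5
    · have h4 := hS.i1' _ _ hcon z hz0 (hpr.trans h1) h2
      rcases lt_trichotomy (o (f u) (f w) (f z)) 0 with h5 | h5 | h5
      · exfalso
        have h6 : 0 < o (f w) (f u) (f z) := by rw [o_swap]; linarith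
        exact hF.em z ⟨h4, h6, in_right hpr h1 hrq hd h6⟩
      · exact (go u w z nrq nzr.symm nzq.symm h5).elim
      · exact h5
    · exact hS.i1' u w h3 z hz0 h1 h2
  · -- i2
    intro u w h z hz h1 h2
    rcases (hE' u w).mp h with h3 | ⟨rfl, rfl⟩ | ⟨rfl, rfl⟩ | ⟨rfl, rfl⟩ | ⟨rfl, rfl⟩
    · have hz3 : z ∈ P ++ p :: q :: Q ∨ z = r := by
        simp only [List.mem_append, List.mem_cons] at hz ⊢
        tauto
      rcases hz3 with hz3 | hz3
      · exact hS.i2 u w h3 z hz3 h1 h2
      · subst hz3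
        have hp : (f u).1 < (f p).1 → 0 < o (f u) (f w) (f p) := fun h4 =>
          hS.i2 u w h3 p (by simp) h4 (hpr.trans h2)
        have hq : (f q).1 < (f w).1 → 0 < o (f u) (f w) (f q) := fun h4 =>
          hS.i2 u w h3 q (by simp) (h1.trans hrq) h4
        have hu : ¬ (f u).1 < (f p).1 → o (f p) (f q) (f u) ≤ 0 := by
          intro h4
          by_cases h5 : u = p
          · rw [h5, o_self']
          · have h6 : (f p).1 < (f u).1 :=
              lt_of_le_of_ne (not_lt.mp h4) (fun h7 => hT.gp.x u p h5 h7.symm)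
            exact (hS.i1 p q hcon u w h3 h6 (h1.trans hrq)).le
        have hw : ¬ (f q).1 < (f w).1 → o (f p) (f q) (f w) ≤ 0 := by
          intro h4
          by_cases h5 : w = q
          · rw [h5, o_self]
          · have h6 : (f w).1 < (f q).1 :=
              lt_of_le_of_ne (not_lt.mp h4) (fun h7 => hT.gp.x w q h5 h7)
            exact (hS.i1 p q hcon w u (hS.nt.sym _ _ h3) (hpr.trans h2) h6).le
        by_cases h4 : (f u).1 < (f p).1
        · by_cases h5 : (f q).1 < (f w).1
          · exact above_A hpr hrq hd h1 h2 (hp h4) (hq h5)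
          · exact above_C hpr hrq hd h1 h2 (hp h4) (hw h5)
        · by_cases h5 : (f q).1 < (f w).1
          · exact above_B hpr hrq hd h1 h2 (hu h4) (hq h5)
          · exact above_D hpr hrq hd h1 h2 (hu h4) (hw h5)
    · exact (con_between hm' ⟨P, q :: Q, rfl⟩ hz h1 h2).elim
    · exact (lt_asymm (h1.trans h2) hpr).elim
    · exact (lt_asymm (h1.trans h2) hrq).elim
    · refine (con_between hm' (u := u) (w := w) ⟨P ++ [p], Q, ?_⟩ hz h1 h2).elim
      simp
  · -- i4
    intro z x w hz hzx hzw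
    have nzC : z ∉ P ++ p :: q :: Q := by
      intro h
      apply hz
      simp only [List.mem_append, List.mem_cons] at h ⊢
      tauto
    have nzr : z ≠ r := fun h => hz (by rw [h]; simp)
    have nzp : z ≠ p := fun h => hz (by rw [h]; simp)
    have nzq : z ≠ q := fun h => hz (by rw [h]; simp)
    have hE : E z x := by
      rcases (hE' z x).mp hzx with h | h | h | h | h
      · exact h
      · exact (nzp h.1).elim
      · exact (nzr h.1).elim
      · exact (nzq h.1).elim
      · exact (nzr h.1).elim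
    exact (hE' z w).mpr (Or.inl (hS.i4 z x w nzC hE hzw))
  · -- i5
    intro u w hc z hz hnz h1
    have hnz0 : ¬ E u z := fun h => hnz ((hE' u z).mpr (Or.inl h))
    have nzu : z ≠ u := fun h => by rw [h] at h1; exact lt_irrefl _ h1
    rcases hcases u w hc with ⟨rfl, rfl⟩ | ⟨rfl, rfl⟩ | ⟨h3, -⟩
    · have nzr : z ≠ w := fun h => hnz ((hE' u z).mpr (Or.inr (Or.inl ⟨rfl, h⟩)))
      have h4 := hS.i5 _ _ hcon z hz hnz0 h1
      rcases lt_trichotomy (o (f u) (f w) (f z)) 0 with h5 | h5 | h5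
      · exfalso
        have h6 : 0 < o (f w) (f u) (f z) := by rw [o_swap]; linarith
        exact ang hT hF hz ⟨h4, h6⟩
      · exact (go u w z npr nzu.symm nzr.symm h5).elim
      · exact h5
    · have nzq : z ≠ w := fun h =>
        hnz ((hE' u z).mpr (Or.inr (Or.inr (Or.inr (Or.inr ⟨rfl, h⟩)))))
      rcases lt_trichotomy (o (f u) (f w) (f z)) 0 with h5 | h5 | h5
      · exfalso
        have h6 : 0 < o (f w) (f u) (f z) := by rw [o_swap]; linarith
        exact ang hT hF3 hz ⟨ang_right hpr hrq hd h1 h6, h6⟩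
      · exact (go u w z nrq nzu.symm nzq.symm h5).elim
      · exact h5
    · exact hS.i5 u w h3 z hz hnz0 h1
  · -- i5'
    intro u w hc z hz hnz h1
    have hnz0 : ¬ E w z := fun h => hnz ((hE' w z).mpr (Or.inl h))
    have nzw : z ≠ w := fun h => by rw [h] at h1; exact lt_irrefl _ h1
    rcases hcases u w hc with ⟨rfl, rfl⟩ | ⟨rfl, rfl⟩ | ⟨h3, -⟩
    · have nzp : z ≠ u := fun h =>
        hnz ((hE' w z).mpr (Or.inr (Or.inr (Or.inl ⟨rfl, h⟩))))
      rcases lt_trichotomy (o (f u) (f w) (f z)) 0 with h5 | h5 | h5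
      · exfalso
        have h6 : 0 < o (f w) (f u) (f z) := by rw [o_swap]; linarith
        exact ang hT hF3 hz ⟨h6, ang_left hpr hrq hd h1 h6⟩
      · exact (go u w z npr nzp.symm nzw.symm h5).elim
      · exact h5
    · have nzr : z ≠ u := fun h =>
        hnz ((hE' w z).mpr (Or.inr (Or.inr (Or.inr (Or.inl ⟨rfl, h⟩)))))
      have h4 := hS.i5' _ _ hcon z hz hnz0 h1
      rcases lt_trichotomy (o (f u) (f w) (f z)) 0 with h5 | h5 | h5
      · exfalso
        have h6 : 0 < o (f w) (f u) (f z) := by rw [o_swap]; linarith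
        exact ang hT hF2 hz ⟨h6, h4⟩
      · exact (go u w z nrq nzr.symm nzw.symm h5).elim
      · exact h5
    · exact hS.i5' u w h3 z hz hnz0 h1

end Pool.Agent.SGE.H67
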