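import Pool.Agent.Helper67_SGE.Kit

/-!
# SGE, module SWB: advance over a triangle with a new edge
-/

set_option autoImplicit false

namespace Pool.Agent.SGE.H67

open Pool.Agent.SGE

/-- `z` below `p v` is below `p q`. -/
theorem below_pv {p v q z : ℝ × ℝ} (h1 : p.1 < z.1) (h2 : z.1 < v.1) (h3 : v.1 < q.1)
    (hd : 0 < o p v q) (hz : o p v z < 0) : o p q z < 0 := by
  have e : (v.1 - p.1) * (- o p q z) = (q.1 - p.1) * (- o p v z) + (z.1 - p.1) * o p v q := by
    unfold o; ring
  have h4 : 0 < (v.1 - p.1) * (- o p q z) := by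
    rw [e]
    have := mul_pos (sub_pos.2 (h1.trans (h2.trans h3))) (neg_pos.2 hz)
    have := mul_pos (sub_pos.2 h1) hd
    linarith
  have := pos_of (by linarith) h4
  linarith

/-- `z` below `v q` is below `p q`. -/
theorem below_vq {p v q z : ℝ × ℝ} (h1 : p.1 < v.1) (h2 : v.1 < z.1) (h3 : z.1 < q.1)
    (hd : 0 < o p v q) (hz : o v q z < 0) : o p q z < 0 := by
  have e : (q.1 - v.1) * (- o p q z) = (q.1 - p.1) * (- o v q z) + (q.1 - z.1) * o p v q := by
    unfold o; ring
  have h4 : 0 < (q.1 - v.1) * (- o p q z) := by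
    rw [e]
    have := mul_pos (sub_pos.2 (h1.trans (h2.trans h3))) (neg_pos.2 hz)
    have := mul_pos (sub_pos.2 h3) hd
    linarith
  have := pos_of (by linarith) h4
  linarith

/-- `z` below `p q` and on the left of `v`: on the left side of `v q`. -/
theorem ins_left {p v q z : ℝ × ℝ} (h1 : p.1 < v.1) (h2 : z.1 < v.1) (h3 : v.1 < q.1)
    (hd : 0 < o p v q) (hz : 0 < o p v z) : 0 < o v q z := by
  have e : (v.1 - p.1) * o v q z = (q.1 - v.1) * o p v z + (v.1 - z.1) * o p v q := by
    unfold o; ring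
  refine pos_of (c := v.1 - p.1) (by linarith) ?_
  rw [e]
  have := mul_pos (sub_pos.2 h3) hz
  have := mul_pos (sub_pos.2 h2) hd
  linarith

theorem ins_right {p v q z : ℝ × ℝ} (h1 : p.1 < v.1) (h2 : v.1 < z.1) (h3 : v.1 < q.1)
    (hd : 0 < o p v q) (hz : 0 < o v q z) : 0 < o p v z := by
  have e : (q.1 - v.1) * o p v z = (v.1 - p.1) * o v q z + (z.1 - v.1) * o p v q := by
    unfold o; ring
  refine pos_of (c := q.1 - v.1) (by linarith) ?_
  rw [e]
  have := mul_pos (sub_pos.2 h1) hz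
  have := mul_pos (sub_pos.2 h2) hd
  linarith

/-- SWB. -/
theorem swb (ntb : NtbStmt) (ang : AngStmt) (fcr : FcrStmt) : SwbStmt := by
  intro V _ f T a b P Q p v q E F hT hS hF
  have hm := hS.mono
  have hc1 : Con (P ++ p :: v :: q :: Q) p v := ⟨P, q :: Q, rfl⟩
  have hc2 : Con (P ++ p :: v :: q :: Q) v q := ⟨P ++ [p], Q, by simp⟩
  have hpv : (f p).1 < (f v).1 := con_lt hm hc1
  have hvq : (f v).1 < (f q).1 := con_lt hm hc2
  have hpq : (f p).1 < (f q).1 := hpv.trans hvq
  have npv : p ≠ v := fun h => by rw [h] at hpv; exact lt_irrefl _ hpv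
  have nvq : v ≠ q := fun h => by rw [h] at hvq; exact lt_irrefl _ hvq
  have npq : p ≠ q := fun h => by rw [h] at hpq; exact lt_irrefl _ hpq
  have hd := hF.pos
  have hF2 := fcr hF
  have hF3 := fcr hF2
  have go : ∀ u v w, u ≠ v → u ≠ w → v ≠ w → o (f u) (f v) (f w) ≠ 0 := hT.gp.o
  have hvb : o (f p) (f q) (f v) < 0 := by
    have h1 : o (f p) (f q) (f v) = - o (f p) (f v) (f q) := by unfold o; ring
    linarith
  have hnpq : ¬ E p q := by
    intro h
    have := hS.i2 p q h v (by simp) hpv hvq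
    linarith
  have hEvq : E v q := by
    by_contra h
    have := hS.i5 v q hc2 q hF.qr h hvq
    rw [o_self] at this
    exact lt_irrefl _ this
  have hsub : (P ++ p :: q :: Q).Sublist (P ++ p :: v :: q :: Q) :=
    (List.Sublist.refl P).append (List.Sublist.cons_cons p (List.sublist_cons_self v (q :: Q)))
  have hm' : (P ++ p :: q :: Q).Pairwise (fun u v => (f u).1 < (f v).1) := hm.sublist hsub
  have hE' : ∀ u w, addE E p q u w ↔ E u w ∨ (u = p ∧ w = q) ∨ (u = q ∧ w = p) := by
    intro u w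
    unfold addE
    tauto
  -- consecutive pairs of the new contour
  have hcases : ∀ u w, Con (P ++ p :: q :: Q) u w →
      (u = p ∧ w = q) ∨ Con (P ++ p :: v :: q :: Q) u w := by
    intro u w h
    rcases con_two h with h1 | h1 | h1
    · exact Or.inl h1
    · exact Or.inr (con_left h1)
    · right
      have h2 : Con ((P ++ [p, v]) ++ q :: Q) u w := con_right h1
      rw [List.append_assoc] at h2
      exact h2
  refine ⟨hnpq, ?_⟩
  constructor
  · exact ntb hS.nt hnpq
  · -- sub
    intro u w h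
    rcases (hE' u w).mp h with h1 | ⟨rfl, rfl⟩ | ⟨rfl, rfl⟩
    · exact hS.sub u w h1
    · exact hT.sym _ _ hF.rp
    · exact hF.rp
  · exact hm'
  · -- i1
    intro u w hc z x hz h1 h2
    have hz2 : ∃ x, E z x := by
      rcases (hE' z x).mp hz with h | h | h
      · exact ⟨x, h⟩
      · exact (con_between hm' hc (z := z) (by rw [h.1]; simp) h1 h2).elim
      · exact (con_between hm' hc (z := z) (by rw [h.1]; simp) h1 h2).elim
    obtain ⟨x', hx'⟩ := hz2
    rcases hcases u w hc with ⟨rfl, rfl⟩ | h3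
    · by_cases h4 : z = v
      · rw [h4]; exact hvb
      · rcases lt_trichotomy (f z).1 (f v).1 with h5 | h5 | h5
        · exact below_pv h1 h5 hvq hd (hS.i1 _ _ hc1 z x' hx' h1 h5)
        · exact (hT.gp.x z v h4 h5).elim
        · exact below_vq hpv h5 h2 hd (hS.i1 _ _ hc2 z x' hx' h5 h2)
    · exact hS.i1 u w h3 z x' hx' h1 h2
  · -- i1'
    intro u w hc z hz h1 h2
    have hz0 : ∀ x, ¬ E z x := fun x hx => hz x ((hE' z x).mpr (Or.inl hx))
    have nzp : z ≠ p := fun h => hz q ((hE' z q).mpr (Or.inr (Or.inl ⟨h, rfl⟩)))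
    have nzq : z ≠ q := fun h => hz p ((hE' z p).mpr (Or.inr (Or.inr ⟨h, rfl⟩)))
    have nzv : z ≠ v := fun h => hz0 q (by rw [h]; exact hEvq)
    rcases hcases u w hc with ⟨rfl, rfl⟩ | h3
    · rcases lt_trichotomy (o (f u) (f w) (f z)) 0 with h5 | h5 | h5
      · exfalso
        have h6 : 0 < o (f w) (f u) (f z) := by rw [o_swap]; linarith
        rcases lt_trichotomy (f z).1 (f v).1 with h7 | h7 | h7
        · have h8 := hS.i1' _ _ hc1 z hz0 h1 h7
          exact hF.em z ⟨h8, ins_left hpv h7 hvq hd h8, h6⟩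
        · exact hT.gp.x z v nzv h7
        · have h8 := hS.i1' _ _ hc2 z hz0 h7 h2
          exact hF.em z ⟨ins_right hpv h7 hvq hd h8, h8, h6⟩
      · exact (go u w z npq nzp.symm nzq.symm h5).elim
      · exact h5
    · exact hS.i1' u w h3 z hz0 h1 h2
  · -- i2
    intro u w h z hz h1 h2
    rcases (hE' u w).mp h with h3 | ⟨rfl, rfl⟩ | ⟨rfl, rfl⟩
    · refine hS.i2 u w h3 z ?_ h1 h2
      exact hsub.subset hz
    · exact (con_between hm' ⟨P, Q, rfl⟩ hz h1 h2).elim
    · exact (lt_asymm (h1.trans h2) hpq).elim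
  · -- i4
    intro z x w hz hzx hzw
    have nzp : z ≠ p := fun h => hz (by rw [h]; simp)
    have nzq : z ≠ q := fun h => hz (by rw [h]; simp)
    have hE : E z x := by
      rcases (hE' z x).mp hzx with h | h | h
      · exact h
      · exact (nzp h.1).elim
      · exact (nzq h.1).elim
    refine (hE' z w).mpr (Or.inl ?_)
    by_cases hzv : z = v
    · subst hzv
      by_contra hn
      have nwz : w ≠ z := fun h => hT.irr z (by rw [h] at hzw; exact hzw)
      rcases lt_trichotomy (f w).1 (f z).1 with h7 | h7 | h7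
      · have h8 := hS.i5' _ _ hc1 w hzw hn h7
        exact ang hT hF2 hzw ⟨ins_left hpv h7 hvq hd h8, h8⟩
      · exact hT.gp.x w z nwz h7
      · have h8 := hS.i5 _ _ hc2 w hzw hn h7
        exact ang hT hF2 hzw ⟨h8, ins_right hpv h7 hvq hd h8⟩
    · refine hS.i4 z x w ?_ hE hzw
      intro h
      apply hz
      simp only [List.mem_append, List.mem_cons] at h ⊢
      tauto
  · -- i5
    intro u w hc z hz hnz h1
    have hnz0 : ¬ E u z := fun h => hnz ((hE' u z).mpr (Or.inl h))
    have nzu : z ≠ u := fun h => by rw [h] at h1; exact lt_irrefl _ h1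
    rcases hcases u w hc with ⟨rfl, rfl⟩ | h3
    · have nzq : z ≠ w := fun h => hnz ((hE' u z).mpr (Or.inr (Or.inl ⟨rfl, h⟩)))
      have h4 := hS.i5 _ _ hc1 z hz hnz0 h1
      rcases lt_trichotomy (o (f u) (f w) (f z)) 0 with h5 | h5 | h5
      · exfalso
        have h6 : 0 < o (f w) (f u) (f z) := by rw [o_swap]; linarith
        exact ang hT hF hz ⟨h4, h6⟩
      · exact (go u w z npq nzu.symm nzq.symm h5).elim
      · exact h5
    · exact hS.i5 u w h3 z hz hnz0 h1
  · -- i5'
    intro u w hc z hz hnz h1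
    have hnz0 : ¬ E w z := fun h => hnz ((hE' w z).mpr (Or.inl h))
    have nzw : z ≠ w := fun h => by rw [h] at h1; exact lt_irrefl _ h1
    rcases hcases u w hc with ⟨rfl, rfl⟩ | h3
    · have nzp : z ≠ u := fun h => hnz ((hE' w z).mpr (Or.inr (Or.inr ⟨rfl, h⟩)))
      have h4 := hS.i5' _ _ hc2 z hz hnz0 h1
      rcases lt_trichotomy (o (f u) (f w) (f z)) 0 with h5 | h5 | h5
      · exfalso
        have h6 : 0 < o (f w) (f u) (f z) := by rw [o_swap]; linarith
        exact ang hT hF3 hz ⟨h6, h4⟩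
      · exact (go u w z npq nzp.symm nzw.symm h5).elim
      · exact h5
    · exact hS.i5' u w h3 z hz hnz0 h1

end Pool.Agent.SGE.H67
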