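import Pool.Agent.SGE.Stmts

/-!
# SGE: small lemmas for the modules SWA and SWB
-/

set_option autoImplicit false

namespace Pool.Agent.SGE.H67

open Pool.Agent.SGE

/-! ### Consecutive elements -/

theorem con_cons {V : Type} {x u w : V} {L : List V} (h : Con (x :: L) u w) :
    (u = x ∧ ∃ L', L = w :: L') ∨ Con L u w := by
  obtain ⟨P, Q, h⟩ := h
  cases P with
  | nil =>
    rw [List.nil_append, List.cons.injEq] at h
    exact Or.inl ⟨h.1.symm, Q, h.2⟩
  | cons y P =>
    rw [List.cons_append, List.cons.injEq] at h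
    exact Or.inr ⟨P, Q, h.2⟩

theorem con_split {V : Type} {L1 L2 : List V} {x u w : V} (h : Con (L1 ++ x :: L2) u w) :
    Con (L1 ++ [x]) u w ∨ Con (x :: L2) u w := by
  induction L1 with
  | nil => exact Or.inr h
  | cons y L1 ih =>
    rcases con_cons h with ⟨rfl, L', hL⟩ | h'
    · left
      cases L1 with
      | nil =>
        rw [List.append_eq, List.nil_append, List.cons.injEq] at hL
        obtain ⟨rfl, -⟩ := hL
        exact ⟨[], [], rfl⟩
      | cons y' L1 =>
        rw [List.append_eq, List.cons_append, List.cons.injEq] at hL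
        obtain ⟨rfl, -⟩ := hL
        exact ⟨[], L1 ++ [x], rfl⟩
    · rcases ih h' with h1 | h1
      · left
        obtain ⟨P, Q, h2⟩ := h1
        refine ⟨y :: P, Q, ?_⟩
        rw [List.cons_append, h2, List.cons_append]
      · exact Or.inr h1

theorem con_left {V : Type} {L1 L2 : List V} {x u w : V} (h : Con (L1 ++ [x]) u w) :
    Con (L1 ++ x :: L2) u w := by
  obtain ⟨P, Q, h⟩ := h
  refine ⟨P, Q ++ L2, ?_⟩
  have : L1 ++ x :: L2 = (L1 ++ [x]) ++ L2 := by simp
  rw [this, h]
  simp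

theorem con_right {V : Type} {L1 L2 : List V} {x u w : V} (h : Con (x :: L2) u w) :
    Con (L1 ++ x :: L2) u w := by
  obtain ⟨P, Q, h⟩ := h
  exact ⟨L1 ++ P, Q, by rw [h]; simp⟩

theorem con_two {V : Type} {P Q : List V} {p q u w : V} (h : Con (P ++ p :: q :: Q) u w) :
    (u = p ∧ w = q) ∨ Con (P ++ [p]) u w ∨ Con (q :: Q) u w := by
  rcases con_split h with h1 | h1
  · exact Or.inr (Or.inl h1)
  · rcases con_cons h1 with ⟨rfl, L', h2⟩ | h2
    · left
      rw [List.cons.injEq] at h2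
      exact ⟨rfl, h2.1.symm⟩
    · exact Or.inr (Or.inr h2)

theorem con_three {V : Type} {P Q : List V} {p r q u w : V}
    (h : Con (P ++ p :: r :: q :: Q) u w) :
    (u = p ∧ w = r) ∨ (u = r ∧ w = q) ∨ Con (P ++ [p]) u w ∨ Con (q :: Q) u w := by
  rcases con_two h with h1 | h1 | h1
  · exact Or.inl h1
  · exact Or.inr (Or.inr (Or.inl h1))
  · have h2 : Con ([] ++ r :: q :: Q) u w := h1
    rcases con_two h2 with h3 | h3 | h3
    · exact Or.inr (Or.inl h3)
    · exfalso
      obtain ⟨A, B, h4⟩ := h3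
      have := congrArg List.length h4
      simp at this
      omega
    · exact Or.inr (Or.inr (Or.inr h3))

theorem con_mem {V : Type} {C : List V} {u w : V} (h : Con C u w) : u ∈ C ∧ w ∈ C := by
  obtain ⟨P, Q, rfl⟩ := h
  exact ⟨by simp, by simp⟩

/-- no element of the contour is strictly between two consecutive ones -/
theorem con_between {V : Type} {f : V → ℝ × ℝ} {C : List V}
    (hm : C.Pairwise (fun u v => (f u).1 < (f v).1)) {u w z : V} (h : Con C u w) (hz : z ∈ C)
    (h1 : (f u).1 < (f z).1) (h2 : (f z).1 < (f w).1) : False := by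
  obtain ⟨P, Q, rfl⟩ := h
  rw [List.pairwise_append] at hm
  obtain ⟨-, hm2, hm3⟩ := hm
  rw [List.pairwise_cons, List.pairwise_cons] at hm2
  rcases List.mem_append.mp hz with h3 | h3
  · have := hm3 z h3 u (by simp)
    linarith
  · rcases List.mem_cons.mp h3 with rfl | h3
    · exact lt_irrefl _ h1
    · rcases List.mem_cons.mp h3 with rfl | h3
      · exact lt_irrefl _ h2
      · have := hm2.2.1 z h3
        linarith

theorem con_lt {V : Type} {f : V → ℝ × ℝ} {C : List V}
    (hm : C.Pairwise (fun u v => (f u).1 < (f v).1)) {u w : V} (h : Con C u w) :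
    (f u).1 < (f w).1 := by
  obtain ⟨P, Q, rfl⟩ := h
  rw [List.pairwise_append] at hm
  have := hm.2.1
  rw [List.pairwise_cons] at this
  exact this.1 w (by simp)

/-- the elements up to `p` are on the left of `p` -/
theorem mem_left {V : Type} {f : V → ℝ × ℝ} {P R : List V} {p z : V}
    (hm : (P ++ p :: R).Pairwise (fun u v => (f u).1 < (f v).1)) (hz : z ∈ P ++ [p]) :
    (f z).1 ≤ (f p).1 := by
  rw [List.pairwise_append] at hm
  rcases List.mem_append.mp hz with h | h
  · exact (hm.2.2 z h p (by simp)).le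
  · rw [List.mem_singleton] at h
    rw [h]

theorem mem_right {V : Type} {f : V → ℝ × ℝ} {P R : List V} {q z : V}
    (hm : (P ++ q :: R).Pairwise (fun u v => (f u).1 < (f v).1)) (hz : z ∈ q :: R) :
    (f q).1 ≤ (f z).1 := by
  rw [List.pairwise_append] at hm
  have h2 := hm.2.1
  rw [List.pairwise_cons] at h2
  rcases List.mem_cons.mp hz with h | h
  · rw [h]
  · exact (h2.1 z h).le

/-! ### Orientations -/

theorem o_rot (p q r : ℝ × ℝ) : o q r p = o p q r := by unfold o; ring

theorem o_swap (p q r : ℝ × ℝ) : o q p r = - o p q r := by unfold o; ring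

theorem o_sum (p q r z : ℝ × ℝ) : o p q z + o q r z + o r p z = o p q r := by unfold o; ring

theorem o_self (p q : ℝ × ℝ) : o p q q = 0 := by unfold o; ring

theorem o_self' (p q : ℝ × ℝ) : o p q p = 0 := by unfold o; ring

theorem pos_of {c x : ℝ} (hc : 0 < c) (h : 0 < c * x) : 0 < x :=
  (mul_pos_iff_of_pos_left hc).mp h

/-- `r` above `p q`, `z` below `p q`: `z` is below `p r`. -/
theorem below_pr {p q r z : ℝ × ℝ} (h1 : p.1 < z.1) (h2 : z.1 < r.1) (h3 : r.1 < q.1)
    (hr : 0 < o p q r) (hz : o p q z < 0) : o p r z < 0 := by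
  have e : (q.1 - p.1) * (- o p r z) = (r.1 - p.1) * (- o p q z) + (z.1 - p.1) * o p q r := by
    unfold o; ring
  have h4 : 0 < (q.1 - p.1) * (- o p r z) := by
    rw [e]
    have := mul_pos (sub_pos.2 (h1.trans h2)) (neg_pos.2 hz)
    have := mul_pos (sub_pos.2 h1) hr
    linarith
  have := pos_of (by linarith) h4
  linarith

/-- `r` above `p q`, `z` below `p q`: `z` is below `r q`. -/
theorem below_rq {p q r z : ℝ × ℝ} (h1 : p.1 < r.1) (h2 : r.1 < z.1) (h3 : z.1 < q.1)
    (hr : 0 < o p q r) (hz : o p q z < 0) : o r q z < 0 := by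
  have e : (q.1 - p.1) * (- o r q z) = (q.1 - r.1) * (- o p q z) + (q.1 - z.1) * o p q r := by
    unfold o; ring
  have h4 : 0 < (q.1 - p.1) * (- o r q z) := by
    rw [e]
    have := mul_pos (sub_pos.2 (h2.trans h3)) (neg_pos.2 hz)
    have := mul_pos (sub_pos.2 h3) hr
    linarith
  have := pos_of (by linarith) h4
  linarith

/-- `z` above `p q` and below `p r`, on the left of `r`: inside the triangle. -/
theorem in_left {p q r z : ℝ × ℝ} (h1 : p.1 < r.1) (h2 : z.1 < r.1) (h3 : r.1 < q.1)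
    (hd : 0 < o p q r) (hb : 0 < o r p z) : 0 < o q r z := by
  have e : (r.1 - p.1) * o q r z = o p q r * (r.1 - z.1) + (q.1 - r.1) * o r p z := by
    unfold o; ring
  have h4 : 0 < (q.1 - r.1) * o r p z := mul_pos (by linarith) hb
  have h5 : 0 < o p q r * (r.1 - z.1) := mul_pos hd (by linarith)
  exact pos_of (sub_pos.2 h1) (by rw [e]; linarith)

/-- `z` above `p q` and below `r q`, on the right of `r`: inside the triangle. -/
theorem in_right {p q r z : ℝ × ℝ} (h1 : p.1 < r.1) (h2 : r.1 < z.1) (h3 : r.1 < q.1)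
    (hd : 0 < o p q r) (hb : 0 < o q r z) : 0 < o r p z := by
  have e : (q.1 - r.1) * o r p z = o p q r * (z.1 - r.1) + (r.1 - p.1) * o q r z := by
    unfold o; ring
  have h4 : 0 < (r.1 - p.1) * o q r z := mul_pos (by linarith) hb
  have h5 : 0 < o p q r * (z.1 - r.1) := mul_pos hd (by linarith)
  exact pos_of (sub_pos.2 h3) (by rw [e]; linarith)

/-- the new vertex `r` is above the edge `u w`: four cases for the ends of `u w` -/
theorem above_A {p q r u w : ℝ × ℝ} (h1 : p.1 < r.1) (h3 : r.1 < q.1) (hd : 0 < o p q r)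
    (h4 : u.1 < r.1) (h5 : r.1 < w.1) (ha : 0 < o u w p) (hb : 0 < o u w q) : 0 < o u w r := by
  have e : (q.1 - p.1) * o u w r = (q.1 - r.1) * o u w p + (r.1 - p.1) * o u w q +
      (w.1 - u.1) * o p q r := by
    unfold o; ring
  refine pos_of (c := q.1 - p.1) (by linarith) ?_
  rw [e]
  have := mul_pos (sub_pos.2 h3) ha
  have := mul_pos (sub_pos.2 h1) hb
  have := mul_pos (sub_pos.2 (h4.trans h5)) hd
  linarith

theorem above_B {p q r u w : ℝ × ℝ} (h1 : p.1 < r.1) (h3 : r.1 < q.1) (hd : 0 < o p q r)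
    (h4 : u.1 < r.1) (h5 : r.1 < w.1) (ha : o p q u ≤ 0) (hb : 0 < o u w q) : 0 < o u w r := by
  have e : (q.1 - u.1) * (q.1 - p.1) * o u w r = (w.1 - u.1) * (q.1 - u.1) * o p q r +
      (w.1 - u.1) * (q.1 - r.1) * (- o p q u) + (q.1 - p.1) * (r.1 - u.1) * o u w q := by
    unfold o; ring
  refine pos_of (c := (q.1 - u.1) * (q.1 - p.1)) (mul_pos (by linarith) (by linarith)) ?_
  rw [e]
  have := mul_pos (mul_pos (sub_pos.2 (h4.trans h5)) (sub_pos.2 (h4.trans h3))) hd
  have := mul_nonneg (mul_pos (sub_pos.2 (h4.trans h5)) (sub_pos.2 h3)).le (neg_nonneg.2 ha)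
  have := mul_pos (mul_pos (sub_pos.2 (h1.trans h3)) (sub_pos.2 h4)) hb
  linarith

theorem above_C {p q r u w : ℝ × ℝ} (h1 : p.1 < r.1) (h3 : r.1 < q.1) (hd : 0 < o p q r)
    (h4 : u.1 < r.1) (h5 : r.1 < w.1) (ha : 0 < o u w p) (hb : o p q w ≤ 0) : 0 < o u w r := by
  have e : (w.1 - p.1) * (q.1 - p.1) * o u w r = (w.1 - u.1) * (w.1 - p.1) * o p q r +
      (q.1 - p.1) * (w.1 - r.1) * o u w p + (w.1 - u.1) * (r.1 - p.1) * (- o p q w) := by
    unfold o; ring
  refine pos_of (c := (w.1 - p.1) * (q.1 - p.1)) (mul_pos (by linarith) (by linarith)) ?_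
  rw [e]
  have := mul_pos (mul_pos (sub_pos.2 (h4.trans h5)) (sub_pos.2 (h1.trans h5))) hd
  have := mul_pos (mul_pos (sub_pos.2 (h1.trans h3)) (sub_pos.2 h5)) ha
  have := mul_nonneg (mul_pos (sub_pos.2 (h4.trans h5)) (sub_pos.2 h1)).le (neg_nonneg.2 hb)
  linarith

theorem above_D {p q r u w : ℝ × ℝ} (h1 : p.1 < r.1) (h3 : r.1 < q.1) (hd : 0 < o p q r)
    (h4 : u.1 < r.1) (h5 : r.1 < w.1) (ha : o p q u ≤ 0) (hb : o p q w ≤ 0) : 0 < o u w r := by
  have e : (q.1 - p.1) * o u w r = (w.1 - u.1) * o p q r + (w.1 - r.1) * (- o p q u) +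
      (r.1 - u.1) * (- o p q w) := by
    unfold o; ring
  refine pos_of (c := q.1 - p.1) (by linarith) ?_
  rw [e]
  have := mul_pos (sub_pos.2 (h4.trans h5)) hd
  have := mul_nonneg (sub_pos.2 h5).le (neg_nonneg.2 ha)
  have := mul_nonneg (sub_pos.2 h4).le (neg_nonneg.2 hb)
  linarith

/-- `w` on the right of `r` and below `r q`: on the left side of `r p`. -/
theorem ang_right {p q r w : ℝ × ℝ} (h1 : p.1 < r.1) (h3 : r.1 < q.1) (hd : 0 < o p q r)
    (h4 : r.1 < w.1) (hw : 0 < o q r w) : 0 < o r p w := by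
  have e : (q.1 - r.1) * o r p w = (r.1 - p.1) * o q r w + (w.1 - r.1) * o p q r := by
    unfold o; ring
  refine pos_of (c := q.1 - r.1) (by linarith) ?_
  rw [e]
  have := mul_pos (sub_pos.2 h1) hw
  have := mul_pos (sub_pos.2 h4) hd
  linarith

/-- `w` on the left of `r` and below `p r`: on the left side of `q r`. -/
theorem ang_left {p q r w : ℝ × ℝ} (h1 : p.1 < r.1) (h3 : r.1 < q.1) (hd : 0 < o p q r)
    (h4 : w.1 < r.1) (hw : 0 < o r p w) : 0 < o q r w := by
  have e : (r.1 - p.1) * o q r w = (q.1 - r.1) * o r p w + (r.1 - w.1) * o p q r := by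
    unfold o; ring
  refine pos_of (c := r.1 - p.1) (by linarith) ?_
  rw [e]
  have := mul_pos (sub_pos.2 h3) hw
  have := mul_pos (sub_pos.2 h4) hd
  linarith

end Pool.Agent.SGE.H67
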